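import Pool.Agent.H43.ALN.Defs

/-!
# ALN: the sorted sorted slices: closure between consecutive layers, and cells
-/

set_option autoImplicit false

namespace Pool.ALN91

open Finset Pool.ALN43

theorem mem_sl {r : ℕ} (A : Finset (Fin (r + 1) → ℕ)) (i : ℕ) (b : Fin r → ℕ) :
    b ∈ sl A i ↔ (Fin.cons i b : Fin (r + 1) → ℕ) ∈ A := by
  unfold sl
  rw [mem_image]
  constructor
  · rintro ⟨a, ha, rfl⟩
    rw [mem_filter] at ha
    rw [← ha.2, Fin.cons_self_tail]
    exact ha.1
  · intro h
    exact ⟨Fin.cons i b, by simp [h], by simp⟩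

theorem comp_empty : ∀ r : ℕ, Comp r (∅ : Finset (Fin r → ℕ)) = ∅
  | 0 => rfl
  | r + 1 => by
    unfold Comp
    simp

/-- The set of slices whose sorted form contains `b`. -/
def ss {r : ℕ} (A : Finset (Fin (r + 1) → ℕ)) (b : Fin r → ℕ) : Finset ℕ :=
  (A.image fun a => a 0).filter fun i => b ∈ Comp r (sl A i)

theorem mem_ss {r : ℕ} (A : Finset (Fin (r + 1) → ℕ)) (b : Fin r → ℕ) (i : ℕ) :
    i ∈ ss A b ↔ b ∈ Comp r (sl A i) := by
  unfold ss
  rw [mem_filter]
  constructor
  · exact fun h => h.2
  · intro h
    refine ⟨?_, h⟩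
    by_contra hi
    have : sl A i = ∅ := by
      rw [eq_empty_iff_forall_notMem]
      intro c hc
      rw [mem_sl] at hc
      exact hi (mem_image.2 ⟨_, hc, by simp⟩)
    rw [this, comp_empty] at h
    simp at h

theorem mem_comp {r : ℕ} (A : Finset (Fin (r + 1) → ℕ)) (a : Fin (r + 1) → ℕ) :
    a ∈ Comp (r + 1) A ↔ a 0 < (ss A (Fin.tail a)).card := by
  have h0 : Comp (r + 1) A =
      ((A.image fun a => a 0).biUnion fun i => Comp r (sl A i)).biUnion fun b =>
      (range (ss A b).card).image
        fun j => (Fin.cons j b : Fin (r + 1) → ℕ) := rfl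
  rw [h0, mem_biUnion]
  constructor
  · rintro ⟨b, -, h⟩
    rw [mem_image] at h
    obtain ⟨j, hj, rfl⟩ := h
    simpa using hj
  · intro h
    refine ⟨Fin.tail a, ?_, ?_⟩
    · rw [mem_biUnion]
      obtain ⟨i, hi⟩ := card_pos.1 (lt_of_le_of_lt (Nat.zero_le _) h)
      unfold ss at hi
      rw [mem_filter] at hi
      exact ⟨i, hi.1, hi.2⟩
    · exact mem_image.2 ⟨a 0, mem_range.2 h, Fin.cons_self_tail a⟩

theorem comp_mono : ∀ (r : ℕ) {A B : Finset (Fin r → ℕ)}, A ⊆ B → Comp r A ⊆ Comp r B
  | 0, _, _, h => h
  | r + 1, A, B, h => by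
    intro a ha
    rw [mem_comp] at ha ⊢
    refine lt_of_lt_of_le ha (card_le_card ?_)
    intro i hi
    rw [mem_ss] at hi ⊢
    refine comp_mono r ?_ hi
    intro c hc
    rw [mem_sl] at hc ⊢
    exact h hc

theorem mem_del {r t : ℕ} (a : Fin r → ℕ) : a ∈ Del r t ↔ dg a < t := by
  unfold Del
  rw [mem_filter, Fintype.mem_piFinset]
  constructor
  · exact fun h => h.2
  · intro h
    refine ⟨fun i => mem_range.2 (lt_of_le_of_lt ?_ h), h⟩
    unfold dg
    exact single_le_sum (f := a) (fun _ _ => Nat.zero_le _) (mem_univ i)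

theorem dg_cons {r : ℕ} (i : ℕ) (b : Fin r → ℕ) :
    dg (Fin.cons i b : Fin (r + 1) → ℕ) = i + dg b := by
  unfold dg
  rw [Fin.sum_univ_succ]
  simp

theorem dg_tail {r : ℕ} (a : Fin (r + 1) → ℕ) : dg a = a 0 + dg (Fin.tail a) := by
  conv_lhs => rw [← Fin.cons_self_tail a]
  rw [dg_cons]

/-- The sorted slices stay in the simplex. -/
theorem comp_del : ∀ (r t : ℕ) {A : Finset (Fin r → ℕ)}, A ⊆ Del r t → Comp r A ⊆ Del r t
  | 0, _, _, h => h
  | r + 1, t, A, h => by
    intro a ha
    rw [mem_comp] at ha
    rw [mem_del, dg_tail]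
    have h1 : ss A (Fin.tail a) ⊆ range (t - dg (Fin.tail a)) := by
      intro i hi
      rw [mem_ss] at hi
      have h2 : sl A i ⊆ Del r (t - i) := by
        intro c hc
        rw [mem_sl] at hc
        have := h hc
        rw [mem_del, dg_cons] at this
        rw [mem_del]
        omega
      have h3 := comp_del r (t - i) h2 hi
      rw [mem_del] at h3
      rw [mem_range]
      omega
    have h2 := card_le_card h1
    rw [card_range] at h2
    omega

/-- The line lemma. -/
theorem line (w : ℕ) (S S' : Finset ℕ) (hS : S ⊆ range (w + 1)) (h1 : ∀ i ∈ S, i < w → i ∈ S')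
    (h2 : ∀ i, i + 1 ∈ S → i ∈ S') : min S.card w ≤ S'.card := by
  by_cases hw : w ∈ S
  · by_cases hg : ∃ j, j < w ∧ j ∉ S
    · -- the largest gap
      obtain ⟨j, hj, hmax⟩ : ∃ j, (j < w ∧ j ∉ S) ∧ ∀ k, k < w → k ∉ S → k ≤ j := by
        obtain ⟨j0, hj0⟩ := hg
        have hne : ((range w).filter fun k => k ∉ S).Nonempty := ⟨j0, by simp [hj0.1, hj0.2]⟩
        refine ⟨((range w).filter fun k => k ∉ S).max' hne, ?_, ?_⟩
        · have := max'_mem _ hne
          rw [mem_filter, mem_range] at this
          exact this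
        · intro k hk hkS
          exact le_max' _ _ (by simp [hk, hkS])
      have hjS' : j ∈ S' := by
        apply h2
        by_cases h : j + 1 < w
        · by_contra hc
          have := hmax (j + 1) h hc
          omega
        · have : j + 1 = w := by omega
          rw [this]; exact hw
      have hsub : insert j (S.erase w) ⊆ S' := by
        intro i hi
        rw [mem_insert, mem_erase] at hi
        rcases hi with rfl | ⟨hne, hiS⟩
        · exact hjS'
        · have := hS hiS
          rw [mem_range] at this
          exact h1 i hiS (by omega)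
      have hc := card_le_card hsub
      rw [card_insert_of_notMem (by simp [hj.2]), card_erase_of_mem hw] at hc
      have : 0 < S.card := card_pos.2 ⟨w, hw⟩
      omega
    · push Not at hg
      have : range w ⊆ S' := by
        intro i hi
        rw [mem_range] at hi
        exact h1 i (hg i hi) hi
      have hc := card_le_card this
      rw [card_range] at hc
      omega
  · have : S ⊆ S' := by
      intro i hi
      have := hS hi
      rw [mem_range] at this
      refine h1 i hi ?_
      rcases Nat.lt_or_ge i w with h | h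
      · exact h
      · have : i = w := by omega
        rw [this] at hi
        exact absurd hi hw
    have := card_le_card this
    omega

theorem cons_add_single {r : ℕ} (i : ℕ) (b : Fin r → ℕ) (k : Fin r) :
    (Fin.cons i b : Fin (r + 1) → ℕ) + Pi.single k.succ 1 = Fin.cons i (b + Pi.single k 1) := by
  funext j
  refine Fin.cases ?_ (fun j => ?_) j
  · simp
  · simp [Pi.single_apply, Fin.succ_inj]

theorem cons_add_single_zero {r : ℕ} (i : ℕ) (b : Fin r → ℕ) :
    (Fin.cons i b : Fin (r + 1) → ℕ) + Pi.single 0 1 = Fin.cons (i + 1) b := by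
  funext j
  refine Fin.cases ?_ (fun j => ?_) j
  · simp
  · simp

theorem tail_add_single {r : ℕ} (a : Fin (r + 1) → ℕ) (k : Fin r) :
    Fin.tail (a + Pi.single k.succ 1) = Fin.tail a + Pi.single k 1 := by
  conv_lhs => rw [← Fin.cons_self_tail a, cons_add_single]
  simp

theorem tail_add_single_zero {r : ℕ} (a : Fin (r + 1) → ℕ) :
    Fin.tail (a + Pi.single 0 1) = Fin.tail a := by
  conv_lhs => rw [← Fin.cons_self_tail a, cons_add_single_zero]
  simp

/-- (c6) The relation between consecutive layers is kept. -/
theorem Shd.comp : ∀ {r : ℕ} (t : ℕ) {A B : Finset (Fin r → ℕ)}, A ⊆ Del r (t + 1) →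
    B ⊆ Del r t → Shd t A B → Shd t (Comp r A) (Comp r B)
  | 0, _, _, _, _, _, h => h
  | r + 1, t, A, B, hA, hB, h => by
    have hsA : ∀ i, sl A i ⊆ Del r (t - i + 1) := by
      intro i c hc
      rw [mem_sl] at hc
      have := hA hc
      rw [mem_del, dg_cons] at this
      rw [mem_del]
      omega
    have hsB : ∀ i, sl B i ⊆ Del r (t - i) := by
      intro i c hc
      rw [mem_sl] at hc
      have := hB hc
      rw [mem_del, dg_cons] at this
      rw [mem_del]
      omega
    have hsh : ∀ i, Shd (t - i) (sl A i) (sl B i) := by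
      intro i
      constructor
      · intro a ha hd
        rw [mem_sl] at ha ⊢
        refine h.1 _ ha ?_
        rw [dg_cons]
        omega
      · intro a k ha
        rw [mem_sl] at ha ⊢
        refine h.2 _ k.succ ?_
        rw [cons_add_single]
        exact ha
    have hI : ∀ i, Shd (t - i) (Comp r (sl A i)) (Comp r (sl B i)) := fun i =>
      Shd.comp (t - i) (hsA i) (hsB i) (hsh i)
    have hstep : ∀ i, sl A (i + 1) ⊆ sl B i := by
      intro i c hc
      rw [mem_sl] at hc ⊢
      refine h.2 _ 0 ?_
      rw [cons_add_single_zero]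
      exact hc
    -- the counts
    have hcnt : ∀ b : Fin r → ℕ,
        min (ss A b).card (t - dg b) ≤ (ss B b).card := by
      intro b
      refine line (t - dg b) (ss A b) (ss B b) ?_ ?_ ?_
      · intro i hi
        rw [mem_ss] at hi
        have h1 : sl A i ⊆ Del r (t + 1 - i) := by
          intro c hc
          rw [mem_sl] at hc
          have := hA hc
          rw [mem_del, dg_cons] at this
          rw [mem_del]
          omega
        have := comp_del r (t + 1 - i) h1 hi
        rw [mem_del] at this
        rw [mem_range]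
        omega
      · intro i hi hlt
        rw [mem_ss] at hi ⊢
        exact (hI i).1 b hi (by omega)
      · intro i hi
        rw [mem_ss] at hi ⊢
        exact comp_mono r (hstep i) hi
    have hbd : ∀ b : Fin r → ℕ, (ss A b).card ≤ t + 1 - dg b := by
      intro b
      have : ss A b ⊆ range (t + 1 - dg b) := by
        intro i hi
        rw [mem_ss] at hi
        have h1 : sl A i ⊆ Del r (t + 1 - i) := by
          intro c hc
          rw [mem_sl] at hc
          have := hA hc
          rw [mem_del, dg_cons] at this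
          rw [mem_del]
          omega
        have := comp_del r (t + 1 - i) h1 hi
        rw [mem_del] at this
        rw [mem_range]
        omega
      have := card_le_card this
      rwa [card_range] at this
    constructor
    · intro a ha hd
      rw [mem_comp] at ha ⊢
      rw [dg_tail] at hd
      have := hcnt (Fin.tail a)
      rw [min_le_iff] at this
      omega
    · intro a k ha
      rw [mem_comp] at ha ⊢
      revert ha
      refine Fin.cases ?_ (fun k => ?_) k
      · intro ha
        rw [tail_add_single_zero] at ha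
        have h1 : (a + Pi.single 0 1 : Fin (r + 1) → ℕ) 0 = a 0 + 1 := by simp
        rw [h1] at ha
        have h2 := hcnt (Fin.tail a)
        have h3 := hbd (Fin.tail a)
        rw [min_le_iff] at h2
        omega
      · intro ha
        rw [tail_add_single] at ha
        have h1 : (a + Pi.single k.succ 1 : Fin (r + 1) → ℕ) 0 = a 0 := by
          simp
        rw [h1] at ha
        refine lt_of_lt_of_le ha (card_le_card ?_)
        intro i hi
        rw [mem_ss] at hi ⊢
        exact (hI i).2 _ k hi

/-! ### cells -/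

theorem mem_cel {r : ℕ} {u : ℕ} (hu : 1 ≤ u) (B : Finset (Fin r → ℕ)) (a : Fin r → ℕ) :
    a ∈ cel u B ↔ (fun k => a k / u) ∈ B := by
  unfold cel
  rw [mem_biUnion]
  constructor
  · rintro ⟨b, hb, h⟩
    rw [Fintype.mem_piFinset] at h
    have : (fun k => a k / u) = b := by
      funext k
      have := h k
      rw [mem_Ico] at this
      apply Nat.div_eq_of_lt_le
      · rw [mul_comm]; exact this.1
      · rw [mul_comm, Nat.mul_succ]; exact this.2
    rw [this]
    exact hb
  · intro h
    refine ⟨_, h, ?_⟩
    rw [Fintype.mem_piFinset]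
    intro k
    rw [mem_Ico]
    constructor
    · exact Nat.mul_div_le _ _
    · have := Nat.lt_mul_div_succ (a k) (show 0 < u by omega)
      rw [Nat.mul_succ] at this
      exact this

theorem sl_cel {r : ℕ} {u : ℕ} (hu : 1 ≤ u) (B : Finset (Fin (r + 1) → ℕ)) (i : ℕ) :
    sl (cel u B) i = cel u (sl B (i / u)) := by
  ext c
  rw [mem_sl, mem_cel hu, mem_cel hu, mem_sl]
  have : (fun k => (Fin.cons i c : Fin (r + 1) → ℕ) k / u) =
      (Fin.cons (i / u) (fun k => c k / u) : Fin (r + 1) → ℕ) := by
    funext k
    refine Fin.cases ?_ (fun k => ?_) k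
    · simp
    · simp
  rw [this]

theorem card_div (u : ℕ) (hu : 1 ≤ u) (S T : Finset ℕ) (h : ∀ i, i ∈ T ↔ i / u ∈ S) :
    T.card = u * S.card := by
  have h1 : T = S.biUnion fun s => Ico (u * s) (u * s + u) := by
    ext i
    rw [h, mem_biUnion]
    constructor
    · intro hi
      refine ⟨i / u, hi, ?_⟩
      rw [mem_Ico]
      refine ⟨Nat.mul_div_le _ _, ?_⟩
      have := Nat.lt_mul_div_succ i (show 0 < u by omega)
      rw [Nat.mul_succ] at this
      exact this
    · rintro ⟨s, hs, hi⟩
      rw [mem_Ico] at hi
      have : i / u = s := by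
        apply Nat.div_eq_of_lt_le
        · rw [mul_comm]; exact hi.1
        · rw [mul_comm, Nat.mul_succ]; exact hi.2
      rw [this]
      exact hs
  rw [h1, card_biUnion]
  · simp [mul_comm]
  · intro x _ y _ hxy
    show Disjoint (Ico (u * x) (u * x + u)) (Ico (u * y) (u * y + u))
    rw [disjoint_left]
    intro i hi hi'
    rw [mem_Ico] at hi hi'
    apply hxy
    have e1 : i / u = x := by
      apply Nat.div_eq_of_lt_le
      · rw [mul_comm]; exact hi.1
      · rw [mul_comm, Nat.mul_succ]; exact hi.2
    have e2 : i / u = y := by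
      apply Nat.div_eq_of_lt_le
      · rw [mul_comm]; exact hi'.1
      · rw [mul_comm, Nat.mul_succ]; exact hi'.2
    rw [← e1, ← e2]

/-- (c7) Sorting commutes with cells. -/
theorem comp_cel : ∀ {r : ℕ} (u : ℕ) (_ : 1 ≤ u) (B : Finset (Fin r → ℕ)),
    Comp r (cel u B) = cel u (Comp r B)
  | 0, _, _, _ => rfl
  | r + 1, u, hu, B => by
    ext a
    rw [mem_comp, mem_cel hu, mem_comp]
    have h1 : (ss (cel u B) (Fin.tail a)).card =
        u * (ss B (fun k => Fin.tail a k / u)).card := by
      refine card_div u hu _ _ fun i => ?_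
      rw [mem_ss, mem_ss, sl_cel hu, comp_cel u hu, mem_cel hu]
    have h2 : Fin.tail (fun k => a k / u) = fun k => Fin.tail a k / u := rfl
    rw [h1, h2, Nat.div_lt_iff_lt_mul (by omega), mul_comm u]

end Pool.ALN91
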